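import Mathlib

/-!
# Graph pebbling: definitions
-/

set_option autoImplicit false

namespace Pool.Agent.H2R2.Peb

variable {V : Type*} [Fintype V] [DecidableEq V]

/-- The size of a configuration: the number of its pebbles. -/
def size (C : V → ℕ) : ℕ := ∑ v, C v

/-- `C'` arises from `C` by a pebbling step along an edge `uv`: two pebbles are removed from `u`
and one pebble is added to `v`. -/
def Step (G : SimpleGraph V) (C C' : V → ℕ) : Prop :=
  ∃ u v, G.Adj u v ∧ 2 ≤ C u ∧ C' = C - Pi.single u 2 + Pi.single v 1

/-- `C` is `D`-solvable: a finite sequence of pebbling steps turns `C` into a configuration that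
has at least `D v` pebbles on every vertex `v`. -/
def Solvable (G : SimpleGraph V) (C D : V → ℕ) : Prop :=
  ∃ C', Relation.ReflTransGen (Step G) C C' ∧ D ≤ C'

/-- The integers `t` such that every configuration of size `t` is `D`-solvable for each `D` in
`𝒟`. The pebbling number `π(G, 𝒟)` is the least element of this set. -/
def solvSizes (G : SimpleGraph V) (𝒟 : Set (V → ℕ)) : Set ℕ :=
  {t | ∀ C : V → ℕ, size C = t → ∀ D ∈ 𝒟, Solvable G C D}

/-- All configurations of size `k`. -/
def targets (V : Type*) [Fintype V] (k : ℕ) : Set (V → ℕ) := {D | size D = k}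

/-- The configurations `k I_v` with `k` pebbles on one vertex `v`. -/
def singleTargets (V : Type*) [DecidableEq V] (k : ℕ) : Set (V → ℕ) := {D | ∃ v, D = Pi.single v k}

end Pool.Agent.H2R2.Peb
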