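import Mathlib
import Pool.Agent.H2R2.Peb.Defs

set_option autoImplicit false
set_option linter.unusedSectionVars false

namespace Pool.Agent.H2R2.Peb

variable {V : Type*} [Fintype V] [DecidableEq V] {G : SimpleGraph V}

/-! ### sizes -/

theorem size_add (C D : V → ℕ) : size (C + D) = size C + size D := by
  simp [size, Finset.sum_add_distrib]

theorem size_single (v : V) (c : ℕ) : size (Pi.single v c : V → ℕ) = c := by
  simp [size]

theorem size_mono {C D : V → ℕ} (h : C ≤ D) : size C ≤ size D :=
  Finset.sum_le_sum fun v _ => h v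

theorem size_sum {ι : Type*} (s : Finset ι) (f : ι → V → ℕ) :
    size (∑ i ∈ s, f i) = ∑ i ∈ s, size (f i) := by
  classical
  induction s using Finset.induction_on with
  | empty => simp [size]
  | insert a s ha ih => rw [Finset.sum_insert ha, Finset.sum_insert ha, size_add, ih]

theorem eq_sum_single (C : V → ℕ) : C = ∑ y, Pi.single y (C y) := by
  ext w
  rw [Finset.sum_apply]
  simp [Pi.single_apply]

/-! ### solvability -/

theorem step_intro {u v : V} (h : G.Adj u v) (E : V → ℕ) :
    Step G (E + Pi.single u 2) (E + Pi.single v 1) := by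
  refine ⟨u, v, h, ?_, ?_⟩
  · simp
  · rw [add_tsub_cancel_right]

theorem step_elim {C C' : V → ℕ} (h : Step G C C') :
    ∃ (u v : V) (E : V → ℕ), G.Adj u v ∧ C = E + Pi.single u 2 ∧ C' = E + Pi.single v 1 := by
  obtain ⟨u, v, h1, h2, h3⟩ := h
  refine ⟨u, v, C - Pi.single u 2, h1, ?_, h3⟩
  rw [tsub_add_cancel_of_le]
  intro w
  by_cases hw : w = u
  · subst hw; simpa using h2
  · simp [Pi.single_apply, hw]

theorem reach_add {C C' : V → ℕ} (h : Relation.ReflTransGen (Step G) C C') (E : V → ℕ) :
    Relation.ReflTransGen (Step G) (C + E) (C' + E) := by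
  induction h with
  | refl => exact Relation.ReflTransGen.refl
  | tail _ h2 ih =>
    refine ih.tail ?_
    obtain ⟨u, v, F, h3, rfl, rfl⟩ := step_elim h2
    have e1 : F + Pi.single u 2 + E = F + E + Pi.single u 2 := by abel
    have e2 : F + Pi.single v 1 + E = F + E + Pi.single v 1 := by abel
    rw [e1, e2]
    exact step_intro h3 _

theorem solv_of_le {C D : V → ℕ} (h : D ≤ C) : Solvable G C D :=
  ⟨C, Relation.ReflTransGen.refl, h⟩

theorem Solvable.trans {C D F : V → ℕ} (h1 : Solvable G C D) (h2 : Solvable G D F) :
    Solvable G C F := by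
  obtain ⟨C', hC, hD⟩ := h1
  obtain ⟨D', hD', hF⟩ := h2
  refine ⟨D' + (C' - D), ?_, hF.trans le_self_add⟩
  refine hC.trans ?_
  have := reach_add hD' (C' - D)
  rwa [add_tsub_cancel_of_le hD] at this

theorem Solvable.add_right {C D : V → ℕ} (h : Solvable G C D) (E : V → ℕ) :
    Solvable G (C + E) (D + E) := by
  obtain ⟨C', hC, hD⟩ := h
  exact ⟨C' + E, reach_add hC E, add_le_add_left hD E⟩

theorem Solvable.add {C D C' D' : V → ℕ} (h : Solvable G C D) (h' : Solvable G C' D') :
    Solvable G (C + C') (D + D') := by
  have h1 := h.add_right C'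
  have h2 := h'.add_right D
  rw [add_comm C' D, add_comm D' D] at h2
  exact h1.trans h2

theorem Solvable.mono {C D C' D' : V → ℕ} (h : Solvable G C D) (hC : C ≤ C') (hD : D' ≤ D) :
    Solvable G C' D' :=
  (solv_of_le hC).trans (h.trans (solv_of_le hD))

theorem solv_step {u v : V} (h : G.Adj u v) : Solvable G (Pi.single u 2) (Pi.single v 1) := by
  refine ⟨_, Relation.ReflTransGen.single (step_intro h 0) |> fun h => ?_, le_rfl⟩
  simpa using h

theorem solv_sum {ι : Type*} (s : Finset ι) (f g : ι → V → ℕ) (h : ∀ i ∈ s, Solvable G (f i) (g i)) :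
    Solvable G (∑ i ∈ s, f i) (∑ i ∈ s, g i) := by
  classical
  induction s using Finset.induction_on with
  | empty => simpa using solv_of_le (G := G) (le_refl (0 : V → ℕ))
  | insert a s ha ih =>
    rw [Finset.sum_insert ha, Finset.sum_insert ha]
    exact (h a (Finset.mem_insert_self a s)).add (ih fun i hi => h i (Finset.mem_insert_of_mem hi))

/-- induction on the number of steps -/
theorem solv_induct {D : V → ℕ} {P : (V → ℕ) → Prop} (base : ∀ C, D ≤ C → P C)
    (step : ∀ (E : V → ℕ) (u v : V), G.Adj u v → Solvable G (E + Pi.single v 1) D →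
      P (E + Pi.single v 1) → P (E + Pi.single u 2)) {C : V → ℕ} (h : Solvable G C D) : P C := by
  obtain ⟨C', hC, hD⟩ := h
  induction hC using Relation.ReflTransGen.head_induction_on with
  | refl => exact base _ hD
  | head h1 h2 ih =>
    obtain ⟨u, v, E, h3, rfl, rfl⟩ := step_elim h1
    exact step E u v h3 ⟨C', h2, hD⟩ ih

/-! ### splitting -/

theorem solv_split {C D1 D2 : V → ℕ} (h : Solvable G C (D1 + D2)) :
    ∃ C1 C2, C1 + C2 ≤ C ∧ Solvable G C1 D1 ∧ Solvable G C2 D2 := by
  refine solv_induct (P := fun C => ∃ C1 C2, C1 + C2 ≤ C ∧ Solvable G C1 D1 ∧ Solvable G C2 D2)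
    ?_ ?_ h
  · intro C hC
    exact ⟨D1, D2, hC, solv_of_le le_rfl, solv_of_le le_rfl⟩
  · rintro E u v huv - ⟨A1, A2, hA, h1, h2⟩
    by_cases hc : A1 v + A2 v ≤ E v
    · refine ⟨A1, A2, fun w => ?_, h1, h2⟩
      have := hA w
      by_cases hw : w = v
      · subst hw
        simp only [Pi.add_apply]
        omega
      · simp only [Pi.add_apply, Pi.single_apply, hw, if_false] at this ⊢
        omega
    · push Not at hc
      have hv := hA v
      simp only [Pi.add_apply, Pi.single_eq_same] at hv
      have key : ∀ A : V → ℕ, 1 ≤ A v → A = (A - Pi.single v 1) + Pi.single v 1 := by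
        intro A hA1
        rw [tsub_add_cancel_of_le]
        intro w
        by_cases hw : w = v
        · subst hw; simpa using hA1
        · simp [Pi.single_apply, hw]
      have mv : ∀ (A D : V → ℕ), 1 ≤ A v → Solvable G A D →
          Solvable G ((A - Pi.single v 1) + Pi.single u 2) D := by
        intro A D hA1 hAD
        have h3 : Solvable G ((A - Pi.single v 1) + Pi.single u 2) A := by
          have h4 := (solv_step huv).add_right (A - Pi.single v 1)
          rw [add_comm, add_comm (Pi.single v 1), ← key A hA1] at h4
          exact h4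
        exact h3.trans hAD
      rcases Nat.eq_zero_or_pos (A1 v) with h0 | h0
      · have h5 : 1 ≤ A2 v := by omega
        refine ⟨A1, (A2 - Pi.single v 1) + Pi.single u 2, fun w => ?_, h1, mv A2 D2 h5 h2⟩
        have := hA w
        by_cases hw : w = v
        · subst hw
          simp only [Pi.add_apply, Pi.sub_apply, Pi.single_eq_same] at this ⊢
          omega
        · simp only [Pi.add_apply, Pi.sub_apply, Pi.single_apply, hw, if_false] at this ⊢
          omega
      · refine ⟨(A1 - Pi.single v 1) + Pi.single u 2, A2, fun w => ?_, mv A1 D1 h0 h1, h2⟩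
        have := hA w
        by_cases hw : w = v
        · subst hw
          simp only [Pi.add_apply, Pi.sub_apply, Pi.single_eq_same] at this ⊢
          omega
        · simp only [Pi.add_apply, Pi.sub_apply, Pi.single_apply, hw, if_false] at this ⊢
          omega

/-- one pebble less spoils at most one target pebble -/
theorem solv_drop {E D : V → ℕ} {b : V} (h : Solvable G (E + Pi.single b 1) D) :
    ∃ w, Solvable G E (D - Pi.single w 1) := by
  suffices H : ∀ C, Solvable G C D → ∀ (b : V) (E : V → ℕ), C = E + Pi.single b 1 →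
      ∃ w, Solvable G E (D - Pi.single w 1) from H _ h b E rfl
  intro C hC
  refine solv_induct (P := fun C => ∀ (b : V) (E : V → ℕ), C = E + Pi.single b 1 →
      ∃ w, Solvable G E (D - Pi.single w 1)) ?_ ?_ hC
  · rintro C hD b E rfl
    refine ⟨b, solv_of_le ?_⟩
    rw [tsub_le_iff_right]
    exact hD
  · rintro F u v huv - ih b E hE
    by_cases hb : b = u
    · subst hb
      obtain ⟨w, hw⟩ := ih v F rfl
      refine ⟨w, hw.mono ?_ le_rfl⟩
      intro z
      show F z ≤ E z
      have := congrFun hE z
      by_cases hz : z = b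
      · subst hz
        simp only [Pi.add_apply, Pi.single_eq_same] at this
        omega
      · simp only [Pi.add_apply, Pi.single_apply, hz, if_false] at this
        omega
    · have hF : 1 ≤ F b := by
        have := congrFun hE b
        simp only [Pi.add_apply, Pi.single_apply, hb, if_false, if_true] at this
        omega
      obtain ⟨w, hw⟩ := ih b (F - Pi.single b 1 + Pi.single v 1) (by
        ext z
        by_cases hz : z = b
        · subst hz
          simp only [Pi.add_apply, Pi.sub_apply, Pi.single_eq_same]
          omega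
        · simp only [Pi.add_apply, Pi.sub_apply, Pi.single_apply, hz, if_false]
          omega)
      refine ⟨w, Solvable.trans ?_ hw⟩
      have h4 := (solv_step huv).add_right (F - Pi.single b 1)
      rw [add_comm, add_comm (Pi.single v 1)] at h4
      refine h4.mono ?_ le_rfl
      intro z
      have := congrFun hE z
      by_cases hz : z = b
      · subst hz
        simp only [Pi.add_apply, Pi.sub_apply, Pi.single_eq_same] at this ⊢
        omega
      · simp only [Pi.add_apply, Pi.sub_apply, Pi.single_apply, hz, if_false] at this ⊢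
        omega

/-- the role of one additional pebble on a vertex that is not in the target -/
theorem solv_cat {P D : V → ℕ} {u : V} (hu : D u = 0) (h : Solvable G (P + Pi.single u 1) D) :
    ∃ Q A, Solvable G P Q ∧ size A = 1 ∧ D + Pi.single u 1 ≤ Q + A ∧ Q ≤ D + Pi.single u 1 := by
  suffices H : ∀ C, Solvable G C D → ∀ P, C = P + Pi.single u 1 →
      ∃ Q A, Solvable G P Q ∧ size A = 1 ∧ D + Pi.single u 1 ≤ Q + A ∧ Q ≤ D + Pi.single u 1 from
    H _ h P rfl
  intro C hC
  refine solv_induct (P := fun C => ∀ P, C = P + Pi.single u 1 →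
      ∃ Q A, Solvable G P Q ∧ size A = 1 ∧ D + Pi.single u 1 ≤ Q + A ∧ Q ≤ D + Pi.single u 1)
    ?_ ?_ hC
  · rintro C hD P rfl
    refine ⟨D, Pi.single u 1, solv_of_le ?_, size_single _ _, le_rfl, le_self_add⟩
    intro z
    have := hD z
    by_cases hz : z = u
    · subst hz; rw [hu]; exact Nat.zero_le _
    · simpa [Pi.single_apply, hz] using this
  · rintro F a b hab hF ih P hP
    by_cases ha : a = u
    · subst ha
      obtain ⟨w, hw⟩ := solv_drop hF
      have hPF : P = F + Pi.single a 1 := by
        ext z
        have := congrFun hP z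
        simp only [Pi.add_apply, Pi.single_apply] at this ⊢
        split_ifs at this ⊢ <;> omega
      refine ⟨D - Pi.single w 1 + Pi.single a 1, Pi.single w 1, ?_, size_single _ _, ?_, ?_⟩
      · rw [hPF]
        exact hw.add_right _
      · intro z
        simp only [Pi.add_apply, Pi.sub_apply]
        omega
      · intro z
        simp only [Pi.add_apply, Pi.sub_apply]
        omega
    · have hFu : 1 ≤ F u := by
        have := congrFun hP u
        simp only [Pi.add_apply, Pi.single_apply, Ne.symm ha, if_false, if_true] at this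
        omega
      obtain ⟨Q, A, h1, h2, h3, h4⟩ := ih (F - Pi.single u 1 + Pi.single b 1) (by
        ext z
        by_cases hz : z = u
        · subst hz
          simp only [Pi.add_apply, Pi.sub_apply, Pi.single_eq_same]
          omega
        · simp only [Pi.add_apply, Pi.sub_apply, Pi.single_apply, hz, if_false]
          omega)
      refine ⟨Q, A, Solvable.trans ?_ h1, h2, h3, h4⟩
      have h5 := (solv_step hab).add_right (F - Pi.single u 1)
      rw [add_comm, add_comm (Pi.single b 1)] at h5
      refine h5.mono ?_ le_rfl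
      intro z
      have := congrFun hP z
      by_cases hz : z = u
      · subst hz
        simp only [Pi.add_apply, Pi.sub_apply, Pi.single_eq_same] at this ⊢
        omega
      · simp only [Pi.add_apply, Pi.sub_apply, Pi.single_apply, hz, if_false] at this ⊢
        omega

/-- the configuration with one pebble on every vertex of `U` -/
def ind (U : Finset V) : V → ℕ := fun v => if v ∈ U then 1 else 0

theorem size_ind (U : Finset V) : size (ind U) = U.card := by
  simp [size, ind]

theorem ind_insert {U : Finset V} {u : V} (hu : u ∉ U) : ind (insert u U) = ind U + Pi.single u 1 := by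
  ext z
  simp only [ind, Pi.add_apply, Pi.single_apply, Finset.mem_insert]
  by_cases hz : z = u
  · subst hz; simp [hu]
  · simp [hz]

theorem solv_cat_multi {P : V → ℕ} (U : Finset V) :
    ∀ D : V → ℕ, (∀ u ∈ U, D u = 0) → Solvable G (P + ind U) D →
    ∃ Q A, Solvable G P Q ∧ size A = U.card ∧ D + ind U ≤ Q + A := by
  induction U using Finset.induction_on with
  | empty =>
    intro D _ h
    refine ⟨D, 0, ?_, by simp [size], ?_⟩
    · have : (ind (∅ : Finset V)) = 0 := by ext z; simp [ind]
      rwa [this, add_zero] at h
    · have : (ind (∅ : Finset V)) = 0 := by ext z; simp [ind]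
      rw [this]
  | insert u U hu ih =>
    intro D hD h
    rw [ind_insert hu, ← add_assoc] at h
    obtain ⟨Q1, A1, h1, h2, h3, h4⟩ := solv_cat (hD u (Finset.mem_insert_self u U)) h
    obtain ⟨Q2, A2, h5, h6, h7⟩ := ih Q1 (fun z hz => by
      have h8 := h4 z
      have hzu : z ≠ u := fun h => hu (h ▸ hz)
      have h9 := hD z (Finset.mem_insert_of_mem hz)
      simp only [Pi.add_apply, Pi.single_apply, hzu, if_false, h9] at h8
      omega) h1
    refine ⟨Q2, A2 + A1, h5, ?_, ?_⟩
    · rw [size_add, h2, h6, Finset.card_insert_of_notMem hu]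
    · rw [ind_insert hu]
      calc D + (ind U + Pi.single u 1) = D + Pi.single u 1 + ind U := by abel
        _ ≤ Q1 + A1 + ind U := add_le_add_left h3 _
        _ = Q1 + ind U + A1 := by abel
        _ ≤ Q2 + A2 + A1 := add_le_add_left h7 _
        _ = Q2 + (A2 + A1) := by abel

end Pool.Agent.H2R2.Peb
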