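import Mathlib
import Pool.Agent.H2R2.Peb.Basic

set_option autoImplicit false
set_option linter.unusedSectionVars false

namespace Pool.Agent.H2R2.Peb

variable {V : Type*} [Fintype V] [DecidableEq V] {G : SimpleGraph V}

theorem single_add' (x : V) (a b : ℕ) :
    (Pi.single x (a + b) : V → ℕ) = Pi.single x a + Pi.single x b := by
  rw [Pi.single_add]

theorem single_mono' (x : V) {a b : ℕ} (h : a ≤ b) :
    (Pi.single x a : V → ℕ) ≤ Pi.single x b := by
  obtain ⟨c, rfl⟩ := Nat.exists_eq_add_of_le h
  rw [Pi.single_add]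
  exact le_self_add

theorem single_le_iff' {x : V} {a : ℕ} {C : V → ℕ} :
    (Pi.single x a : V → ℕ) ≤ C ↔ a ≤ C x := by
  constructor
  · intro h
    simpa using h x
  · intro h w
    by_cases hw : w = x
    · subst hw; simpa using h
    · simp [hw]

theorem solv_mul {x v : V} {a b : ℕ} (h : Solvable G (Pi.single x a) (Pi.single v b)) (m : ℕ) :
    Solvable G (Pi.single x (a * m)) (Pi.single v (b * m)) := by
  induction m with
  | zero => simpa using solv_of_le (G := G) (le_refl (0 : V → ℕ))
  | succ m ih =>
    rw [Nat.mul_succ, Nat.mul_succ, single_add', single_add']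
    exact ih.add h

theorem solv_walk {x v : V} (p : G.Walk x v) :
    Solvable G (Pi.single x (2 ^ p.length)) (Pi.single v 1) := by
  induction p with
  | nil => simpa using solv_of_le (G := G) le_rfl
  | cons h p ih =>
    rw [SimpleGraph.Walk.length_cons, pow_succ, mul_comm]
    refine Solvable.trans ?_ ih
    have := solv_mul (solv_step h) (2 ^ p.length)
    rwa [one_mul] at this

theorem solv_dist (hG : G.Connected) {x v : V} {d : ℕ} (h : G.dist x v ≤ d) :
    Solvable G (Pi.single x (2 ^ d)) (Pi.single v 1) := by
  obtain ⟨p, hp⟩ := hG.exists_walk_length_eq_dist x v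
  have h1 := solv_walk p
  rw [hp] at h1
  exact h1.mono (single_mono' x (Nat.pow_le_pow_right (by norm_num) h)) le_rfl

theorem solv_dist_mul (hG : G.Connected) {x v : V} {d : ℕ} (h : G.dist x v ≤ d) (m : ℕ) :
    Solvable G (Pi.single x (2 ^ d * m)) (Pi.single v m) := by
  have := solv_mul (solv_dist hG h) m
  rwa [one_mul] at this

/-- the weight of a configuration -/
noncomputable def wt (G : SimpleGraph V) (d : ℕ) (v : V) (C : V → ℕ) : ℕ := ∑ y, C y * 2 ^ (d - G.dist y v)

theorem wt_add (d : ℕ) (v : V) (C D : V → ℕ) : wt G d v (C + D) = wt G d v C + wt G d v D := by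
  simp [wt, add_mul, Finset.sum_add_distrib]

theorem wt_single (d : ℕ) (v x : V) (c : ℕ) :
    wt G d v (Pi.single x c) = c * 2 ^ (d - G.dist x v) := by
  unfold wt
  rw [Finset.sum_eq_single x]
  · simp
  · intro b _ hb
    simp [hb]
  · intro h
    exact absurd (Finset.mem_univ x) h

theorem wt_mono (d : ℕ) (v : V) {C D : V → ℕ} (h : C ≤ D) : wt G d v C ≤ wt G d v D :=
  Finset.sum_le_sum fun y _ => Nat.mul_le_mul_right _ (h y)

theorem wt_solv (hG : G.Connected) (d : ℕ) (v : V) {C D : V → ℕ} (h : Solvable G C D) :
    wt G d v D ≤ wt G d v C := by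
  refine solv_induct (P := fun C => wt G d v D ≤ wt G d v C) (fun C hC => wt_mono d v hC) ?_ h
  intro E a b hab _ ih
  refine ih.trans ?_
  rw [wt_add, wt_add, wt_single, wt_single]
  refine Nat.add_le_add_left ?_ _
  have h1 : G.dist a v ≤ G.dist b v + 1 := by
    have h2 := hG.dist_triangle (u := a) (v := b) (w := v)
    have h3 : G.dist a b = 1 := SimpleGraph.dist_eq_one_iff_adj.2 hab
    omega
  have h2 : d - G.dist b v ≤ (d - G.dist a v) + 1 := by omega
  calc 1 * 2 ^ (d - G.dist b v) ≤ 2 ^ ((d - G.dist a v) + 1) := by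
        rw [one_mul]
        exact Nat.pow_le_pow_right (by norm_num) h2
    _ = 2 * 2 ^ (d - G.dist a v) := by rw [pow_succ, mul_comm]

theorem le_of_solv_single (hG : G.Connected) {x v : V} {d c m : ℕ} (h : G.dist x v = d)
    (hs : Solvable G (Pi.single x c) (Pi.single v m)) : 2 ^ d * m ≤ c := by
  have := wt_solv hG d v hs
  rw [wt_single, wt_single, h, Nat.sub_self, pow_zero, mul_one, SimpleGraph.dist_self,
    Nat.sub_zero] at this
  rwa [mul_comm]

/-- the number of pebbles outside `x` -/
def nonx (x : V) (C : V → ℕ) : ℕ := ∑ y ∈ Finset.univ.erase x, C y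

theorem nonx_add (x : V) (C D : V → ℕ) : nonx x (C + D) = nonx x C + nonx x D := by
  simp [nonx, Finset.sum_add_distrib]

theorem nonx_mono (x : V) {C D : V → ℕ} (h : C ≤ D) : nonx x C ≤ nonx x D :=
  Finset.sum_le_sum fun y _ => h y

theorem nonx_single (x : V) (c : ℕ) : nonx x (Pi.single x c) = 0 := by
  apply Finset.sum_eq_zero
  intro y hy
  simp [Finset.ne_of_mem_erase hy]

theorem size_eq_nonx (x : V) (C : V → ℕ) : size C = C x + nonx x C :=
  (Finset.add_sum_erase _ _ (Finset.mem_univ x)).symm

theorem eq_single_of_nonx {x : V} {C : V → ℕ} (h : nonx x C = 0) : C = Pi.single x (C x) := by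
  ext y
  by_cases hy : y = x
  · subst hy; simp
  · have := (Finset.sum_eq_zero_iff.1 h) y (Finset.mem_erase.2 ⟨hy, Finset.mem_univ y⟩)
    simp [hy, this]

/-- a solution for more target pebbles than there are pebbles outside `x` uses `2 ^ d` pebbles of
`x` for one of the target pebbles -/
theorem exists_pure (hG : G.Connected) {x v : V} {d : ℕ} (hd : G.dist x v = d) (k : ℕ) :
    ∀ C : V → ℕ, nonx x C < k → Solvable G C (Pi.single v k) →
      ∃ c, 2 ^ d ≤ c ∧ c ≤ C x ∧ Solvable G (C - Pi.single x c) (Pi.single v (k - 1)) := by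
  induction k with
  | zero => intro C h; omega
  | succ k ih =>
    intro C hC hs
    rw [single_add'] at hs
    obtain ⟨C1, C2, hle, h1, h2⟩ := solv_split hs
    rw [Nat.add_sub_cancel]
    by_cases h0 : nonx x C2 = 0
    · refine ⟨C2 x, ?_, ?_, ?_⟩
      · rw [eq_single_of_nonx h0] at h2
        have := le_of_solv_single hG hd h2
        omega
      · have := hle x
        simp only [Pi.add_apply] at this
        omega
      · refine h1.mono ?_ le_rfl
        rw [← eq_single_of_nonx h0]
        intro z
        have := hle z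
        simp only [Pi.add_apply, Pi.sub_apply] at this ⊢
        omega
    · have h3 : nonx x C1 + nonx x C2 ≤ nonx x C := by
        rw [← nonx_add]; exact nonx_mono x hle
      obtain ⟨c, hc1, hc2, hc3⟩ := ih C1 (by omega) h1
      refine ⟨c, hc1, ?_, ?_⟩
      · have := hle x
        simp only [Pi.add_apply] at this
        omega
      · have h4 := hc3.add h2
        have h5 : k - 1 + 1 = k := by omega
        rw [← single_add', h5] at h4
        refine h4.mono ?_ le_rfl
        intro z
        have := hle z
        by_cases hz : z = x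
        · subst hz
          simp only [Pi.add_apply, Pi.sub_apply, Pi.single_eq_same] at this ⊢
          omega
        · simp only [Pi.add_apply, Pi.sub_apply, Pi.single_apply, hz, if_false] at this ⊢
          omega

theorem remove_stack (hG : G.Connected) {x v : V} {d : ℕ} (hd : G.dist x v = d) (E : V → ℕ)
    (m : ℕ) (hE : nonx x E ≤ m) (s : ℕ)
    (h : Solvable G (E + Pi.single x (2 ^ d * s)) (Pi.single v (m + s))) :
    Solvable G E (Pi.single v m) := by
  induction s with
  | zero => simpa using h
  | succ s ih =>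
    apply ih
    obtain ⟨c, hc1, hc2, hc3⟩ := exists_pure hG hd (m + (s + 1)) _ (by
      rw [nonx_add, nonx_single]; omega) h
    have h1 : m + (s + 1) - 1 = m + s := by omega
    rw [h1] at hc3
    refine hc3.mono ?_ le_rfl
    intro z
    by_cases hz : z = x
    · subst hz
      simp only [Pi.add_apply, Pi.sub_apply, Pi.single_eq_same]
      rw [Nat.mul_succ]
      omega
    · simp only [Pi.add_apply, Pi.sub_apply, Pi.single_apply, hz, if_false]
      omega

end Pool.Agent.H2R2.Peb
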