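import Mathlib
import Pool.Agent.H2R2.Peb.Dist

set_option autoImplicit false
set_option linter.unusedSectionVars false

namespace Pool.Agent.H2R2.Peb

variable {V : Type*} [Fintype V] [DecidableEq V] {G : SimpleGraph V}

/-- a configuration that serves any `j` targets -/
def Univ (G : SimpleGraph V) (j : ℕ) (F : V → ℕ) : Prop := ∀ D : V → ℕ, size D = j → Solvable G F D

theorem exists_pos_of_size {D : V → ℕ} {j : ℕ} (h : size D = j + 1) :
    ∃ w D', D = D' + Pi.single w 1 ∧ size D' = j := by
  have h1 : ∃ w, 1 ≤ D w := by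
    by_contra hc
    push Not at hc
    have : size D = 0 := Finset.sum_eq_zero fun w _ => by
      have := hc w
      omega
    omega
  obtain ⟨w, hw⟩ := h1
  have h2 : D = (D - Pi.single w 1) + Pi.single w 1 := by
    rw [tsub_add_cancel_of_le (single_le_iff'.2 hw)]
  refine ⟨w, D - Pi.single w 1, h2, ?_⟩
  have h3 := congrArg size h2
  rw [size_add, size_single, h] at h3
  omega

theorem greedy (hG : G.Connected) {d : ℕ} (hd : ∀ y w, G.dist y w ≤ d) (j : ℕ) :
    ∀ C : V → ℕ, Fintype.card V * 2 ^ d + 2 ^ d * j ≤ size C →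
      ∃ C0 F, C = C0 + F ∧ size F = 2 ^ d * j ∧ Univ G j F := by
  induction j with
  | zero =>
    intro C _
    refine ⟨C, 0, by simp, by simp [size], fun D hD => solv_of_le ?_⟩
    intro w
    have : D w ≤ size D := Finset.single_le_sum (fun i _ => Nat.zero_le _) (Finset.mem_univ w)
    rw [hD] at this
    exact this
  | succ j ih =>
    intro C hC
    have h1 : ∃ y, 2 ^ d ≤ C y := by
      by_contra hc
      push Not at hc
      have h2 : size C ≤ ∑ _y : V, 2 ^ d := Finset.sum_le_sum fun y _ => (hc y).le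
      rw [Finset.sum_const, Finset.card_univ, smul_eq_mul] at h2
      have h3 : 0 < 2 ^ d * (j + 1) := by positivity
      omega
    obtain ⟨y, hy⟩ := h1
    have h2 : C = (C - Pi.single y (2 ^ d)) + Pi.single y (2 ^ d) := by
      rw [tsub_add_cancel_of_le (single_le_iff'.2 hy)]
    have h3 := congrArg size h2
    rw [size_add, size_single] at h3
    obtain ⟨C0, F, h4, h5, h6⟩ := ih (C - Pi.single y (2 ^ d)) (by rw [Nat.mul_succ] at hC; omega)
    refine ⟨C0, F + Pi.single y (2 ^ d), ?_, ?_, ?_⟩
    · rw [← add_assoc, ← h4]; exact h2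
    · rw [size_add, size_single, h5, Nat.mul_succ]
    · intro D hD
      obtain ⟨w, D', rfl, hD'⟩ := exists_pos_of_size hD
      exact (h6 D' hD').add (solv_dist hG (hd y w))

theorem exists_sub (t : ℕ) (n : ℕ) : ∀ C : V → ℕ, size C = t + n → ∃ C' ≤ C, size C' = t := by
  induction n with
  | zero => intro C hC; exact ⟨C, le_rfl, hC⟩
  | succ n ih =>
    intro C hC
    obtain ⟨w, D, rfl, hD⟩ := exists_pos_of_size (j := t + n) hC
    obtain ⟨C', h1, h2⟩ := ih D hD
    exact ⟨C', h1.trans le_self_add, h2⟩

theorem solv_of_size_ge {𝒟 : Set (V → ℕ)} {t : ℕ} (ht : t ∈ solvSizes G 𝒟) {C D : V → ℕ}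
    (hC : t ≤ size C) (hD : D ∈ 𝒟) : Solvable G C D := by
  obtain ⟨n, hn⟩ := Nat.exists_eq_add_of_le hC
  obtain ⟨C', h1, h2⟩ := exists_sub t n C hn
  exact (ht C' h2 D hD).mono h1 le_rfl

/-- the key lemma: from an unsolvable configuration of size at least `2 ^ d m` for `m I_v` to an
unsolvable configuration for `(m + s) I_v` with `2 ^ d s` more pebbles -/
theorem key (hG : G.Connected) {d : ℕ} (hd0 : 1 ≤ d) (hd : ∀ y w, G.dist y w ≤ d) {v : V} {m : ℕ}
    (hm : Fintype.card V * ((Fintype.card V - 1) * (2 ^ d - 1)) + 2 * Fintype.card V ≤ m)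
    {C : V → ℕ} (hC : 2 ^ d * m ≤ size C) (hns : ¬ Solvable G C (Pi.single v m)) (s : ℕ) :
    ∃ C' : V → ℕ, size C' = size C + 2 ^ d * s ∧ ¬ Solvable G C' (Pi.single v (m + s)) := by
  classical
  set n := Fintype.card V with hn
  have hn0 : 0 < n := Fintype.card_pos_iff.2 ⟨v⟩
  set e : V → ℕ := fun y => if G.dist y v = d then d else d - 1 with he
  have hde : ∀ y, G.dist y v ≤ e y := by
    intro y
    have := hd y v
    simp only [he]
    split_ifs with h
    · exact h.le
    · omega
  set q : V → ℕ := fun y => C y / 2 ^ e y with hq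
  -- the number of targets that can be reached directly
  have hQ : ∑ y, q y < m := by
    by_contra hc
    push Not at hc
    apply hns
    have h1 : Solvable G (∑ y, Pi.single y (2 ^ e y * q y)) (∑ y, Pi.single v (q y)) :=
      solv_sum _ _ _ fun y _ => solv_dist_mul hG (hde y) (q y)
    refine h1.mono ?_ ?_
    · conv_rhs => rw [eq_sum_single C]
      refine Finset.sum_le_sum fun y _ => single_mono' y ?_
      exact Nat.mul_div_le _ _
    · have h2 : (∑ y, (Pi.single v (q y) : V → ℕ)) = Pi.single v (∑ y, q y) := by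
        ext w
        rw [Finset.sum_apply]
        by_cases hw : w = v
        · subst hw; simp
        · simp [hw]
      rw [h2]
      exact single_mono' v hc
  set F : Finset V := Finset.univ.filter fun y => G.dist y v = d with hF
  have h2d : 2 ^ d = 2 * 2 ^ (d - 1) := by
    rw [← pow_succ']
    congr 1
    omega
  have hp : 0 < 2 ^ (d - 1) := by positivity
  -- the far vertices serve most of the targets
  have hfar : m + 1 ≤ ∑ y ∈ F, q y + 2 * n := by
    have h1 : size C ≤ ∑ y, (2 ^ e y * q y + 2 ^ d) := by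
      refine Finset.sum_le_sum fun y _ => ?_
      have h2 := Nat.div_add_mod (C y) (2 ^ e y)
      have h3 := Nat.mod_lt (C y) (show 0 < 2 ^ e y by positivity)
      have h4 : 2 ^ e y ≤ 2 ^ d := by
        refine Nat.pow_le_pow_right (by norm_num) ?_
        simp only [he]
        split_ifs <;> omega
      show C y ≤ 2 ^ e y * (C y / 2 ^ e y) + 2 ^ d
      omega
    have h5 : ∑ y, 2 ^ e y * q y = 2 ^ (d - 1) * (∑ y ∈ F, q y + ∑ y, q y) := by
      rw [hF, Finset.sum_filter, ← Finset.sum_add_distrib, Finset.mul_sum]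
      refine Finset.sum_congr rfl fun y _ => ?_
      by_cases h : G.dist y v = d
      · have : e y = d := by simp [he, h]
        rw [this, if_pos h, h2d]; ring
      · have : e y = d - 1 := by simp [he, h]
        rw [this, if_neg h, zero_add]
    rw [Finset.sum_add_distrib, h5, Finset.sum_const, Finset.card_univ, smul_eq_mul, ← hn, h2d]
      at h1
    rw [h2d] at hC
    have h6 : 2 ^ (d - 1) * (2 * m) ≤ 2 ^ (d - 1) * (∑ y ∈ F, q y + ∑ y, q y + 2 * n) := by
      calc 2 ^ (d - 1) * (2 * m) = 2 * 2 ^ (d - 1) * m := by ring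
        _ ≤ _ := hC.trans h1
        _ = _ := by ring
    have h7 := Nat.le_of_mul_le_mul_left h6 hp
    omega
  -- a heavy far vertex
  set B := (n - 1) * (2 ^ d - 1) with hB
  have hx : ∃ x ∈ F, B ≤ q x := by
    by_contra hc
    push Not at hc
    have h1 : ∑ y ∈ F, q y ≤ ∑ _y ∈ F, B := Finset.sum_le_sum fun y hy => (hc y hy).le
    rw [Finset.sum_const, smul_eq_mul] at h1
    have h2 : F.card * B ≤ n * B := Nat.mul_le_mul_right _ (Finset.card_le_univ F)
    omega
  obtain ⟨x, hxF, hxB⟩ := hx
  have hxd : G.dist x v = d := (Finset.mem_filter.1 hxF).2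
  set E : V → ℕ := fun y => if y = x then C x else C y % 2 ^ d with hE
  set j := ∑ y ∈ Finset.univ.erase x, C y / 2 ^ d with hj
  have hjq : j + q x ≤ ∑ y, q y := by
    rw [← Finset.sum_erase_add _ _ (Finset.mem_univ x)]
    refine Nat.add_le_add_right (Finset.sum_le_sum fun y _ => ?_) _
    refine Nat.div_le_div_left ?_ (by positivity)
    refine Nat.pow_le_pow_right (by norm_num) ?_
    simp only [he]
    split_ifs <;> omega
  have hnonE : nonx x E ≤ B := by
    have h1 : nonx x E ≤ ∑ _y ∈ Finset.univ.erase x, (2 ^ d - 1) := by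
      refine Finset.sum_le_sum fun y hy => ?_
      have h2 := Finset.ne_of_mem_erase hy
      have h3 := Nat.mod_lt (C y) (show 0 < 2 ^ d by positivity)
      simp only [hE, h2, if_false]
      omega
    rw [Finset.sum_const, Finset.card_erase_of_mem (Finset.mem_univ x), Finset.card_univ,
      smul_eq_mul] at h1
    exact h1
  have hCdec : C = E + ∑ y ∈ Finset.univ.erase x, Pi.single y (2 ^ d * (C y / 2 ^ d)) := by
    ext w
    rw [Pi.add_apply, Finset.sum_apply]
    by_cases hw : w = x
    · subst hw
      rw [Finset.sum_eq_zero]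
      · simp [hE]
      · intro y hy
        simp [Pi.single_apply, (Finset.ne_of_mem_erase hy).symm]
    · rw [Finset.sum_eq_single w]
      · simp only [hE, hw, if_false, Pi.single_eq_same]
        have := Nat.div_add_mod (C w) (2 ^ d)
        omega
      · intro b _ hb
        simp [Pi.single_apply, hb.symm]
      · intro h
        exact absurd (Finset.mem_erase.2 ⟨hw, Finset.mem_univ w⟩) h
  refine ⟨E + Pi.single x (2 ^ d * (j + s)), ?_, fun hs => hns ?_⟩
  · rw [size_add, size_single, Nat.mul_add, ← add_assoc]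
    congr 1
    conv_rhs => rw [hCdec]
    rw [size_add, size_sum, hj, Finset.mul_sum]
    congr 1
    refine Finset.sum_congr rfl fun y _ => ?_
    rw [size_single]
  · have h1 : m + s = (m - j) + (j + s) := by omega
    rw [h1] at hs
    have h2 := remove_stack hG hxd E (m - j) (by omega) (j + s) hs
    rw [hCdec]
    have h3 : Solvable G (∑ y ∈ Finset.univ.erase x, Pi.single y (2 ^ d * (C y / 2 ^ d)))
        (∑ y ∈ Finset.univ.erase x, Pi.single v (C y / 2 ^ d)) :=
      solv_sum _ _ _ fun y _ => solv_dist_mul hG (hd y v) _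
    have h4 : (∑ y ∈ Finset.univ.erase x, (Pi.single v (C y / 2 ^ d) : V → ℕ)) = Pi.single v j := by
      ext w
      rw [Finset.sum_apply]
      by_cases hw : w = v
      · subst hw; simp [hj]
      · simp [hw]
    rw [h4] at h3
    have h5 := h2.add h3
    rw [← single_add'] at h5
    have h6 : m - j + j = m := by omega
    rwa [h6] at h5

end Pool.Agent.H2R2.Peb
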