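import Mathlib
import Pool.Agent.H2R2.Peb.Main

set_option autoImplicit false
set_option linter.unusedSectionVars false

namespace Pool.Agent.H2R2.Peb

variable {V : Type*} [Fintype V] [DecidableEq V] {G : SimpleGraph V}

theorem universal (hG : G.Connected) {d : ℕ} (hd : ∀ y w, G.dist y w ≤ d) {k : ℕ} {C D : V → ℕ}
    (hC : Fintype.card V * 2 ^ d + 2 ^ d * k ≤ size C) (hD : size D = k) : Solvable G C D := by
  obtain ⟨C0, F, rfl, -, h⟩ := greedy hG hd k C hC
  exact (h D hD).mono le_add_self le_rfl

theorem strong (hG : G.Connected) {d : ℕ} (hd : ∀ y w, G.dist y w ≤ d) {x0 v0 : V}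
    (hxv : G.dist x0 v0 = d) {k : ℕ} (hk : Fintype.card V ^ 3 * 2 ^ d ≤ k) {t : ℕ}
    (ht : t ∈ solvSizes G (singleTargets V k)) {C D : V → ℕ} (hD : size D = k)
    (hC : t + 1 ≤ size C + (Finset.univ.filter fun v => D v ≠ 0).card) : Solvable G C D := by
  classical
  set n := Fintype.card V with hn
  have hn0 : 0 < n := Fintype.card_pos_iff.2 ⟨x0⟩
  -- a lower bound for `t`
  have htk : 2 ^ d * k ≤ t := by
    have h1 : Solvable G (Pi.single x0 t) (Pi.single v0 k) := ht _ (size_single _ _) _ ⟨v0, rfl⟩
    exact le_of_solv_single hG hxv h1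
  have hk0 : 0 < k := lt_of_lt_of_le (by positivity) hk
  -- the most frequent target vertex
  have hv : ∃ v, k ≤ n * D v := by
    by_contra hc
    push Not at hc
    have h1 : ∑ v, n * D v < ∑ _v : V, k := by
      apply Finset.sum_lt_sum_of_nonempty ⟨x0, Finset.mem_univ x0⟩
      intro v _
      exact hc v
    rw [← Finset.mul_sum, Finset.sum_const, Finset.card_univ, smul_eq_mul, ← hn] at h1
    have h2 : ∑ v, D v = k := hD
    rw [h2] at h1
    exact lt_irrefl _ h1
  obtain ⟨v, hv⟩ := hv
  set m := D v with hm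
  have hm0 : 0 < m := by
    rcases Nat.eq_zero_or_pos m with h | h
    · rw [h] at hv; omega
    · exact h
  set S := Finset.univ.filter fun v => D v ≠ 0 with hS
  set U := S.erase v with hU
  have hvS : v ∈ S := by
    rw [hS, Finset.mem_filter]
    exact ⟨Finset.mem_univ v, by omega⟩
  have hcard : U.card + 1 = S.card := Finset.card_erase_add_one hvS
  by_contra hns
  -- the support has at least two elements
  by_cases hU0 : U = ∅
  · have hDv : D = Pi.single v k := by
      have h1 : D = Pi.single v (D v) := by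
        ext w
        by_cases hw : w = v
        · subst hw; simp
        · have h2 : w ∉ U := by rw [hU0]; exact Finset.notMem_empty w
          have h3 : w ∉ S := fun h => h2 (Finset.mem_erase.2 ⟨hw, h⟩)
          rw [hS, Finset.mem_filter] at h3
          push Not at h3
          simp [hw, h3 (Finset.mem_univ w)]
      have h2 : D v = k := by
        have h3 := congrArg size h1
        rw [size_single, hD] at h3
        exact h3.symm
      rw [h1, h2]
    apply hns
    refine solv_of_size_ge ht ?_ ⟨v, hDv⟩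
    rw [hU0, Finset.card_empty] at hcard
    omega
  obtain ⟨u0, hu0⟩ := Finset.nonempty_iff_ne_empty.2 hU0
  have hu0v : u0 ≠ v := Finset.ne_of_mem_erase hu0
  have hn2 : 2 ≤ n := by
    have : 1 < Fintype.card V := Fintype.one_lt_card_iff.2 ⟨u0, v, hu0v⟩
    omega
  have hd1 : 1 ≤ d := by
    have h1 := hG.pos_dist_of_ne hu0v
    have h2 := hd u0 v
    omega
  have h2d : 2 ≤ 2 ^ d := by
    calc 2 = 2 ^ 1 := by norm_num
      _ ≤ 2 ^ d := Nat.pow_le_pow_right (by norm_num) hd1
  -- `m` is large
  have hmn : n ^ 2 * 2 ^ d ≤ m := by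
    have h1 : n * (n ^ 2 * 2 ^ d) ≤ n * m := by
      calc n * (n ^ 2 * 2 ^ d) = n ^ 3 * 2 ^ d := by ring
        _ ≤ k := hk
        _ ≤ n * m := hv
    exact Nat.le_of_mul_le_mul_left h1 hn0
  obtain ⟨p, hp⟩ : ∃ p, 2 ^ d = p + 2 := ⟨2 ^ d - 2, by omega⟩
  obtain ⟨a, ha⟩ : ∃ a, n = a + 2 := ⟨n - 2, by omega⟩
  have hm3 : 3 * n ≤ m := by
    rw [hp, ha] at hmn
    rw [ha]
    nlinarith [Nat.zero_le (a * p), Nat.zero_le (a ^ 2 * p)]
  have hmB : n * ((n - 1) * (2 ^ d - 1)) + 2 * n ≤ m := by
    have e1 : n - 1 = a + 1 := by omega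
    have e2 : 2 ^ d - 1 = p + 1 := by omega
    rw [e1, e2]
    rw [hp, ha] at hmn
    rw [ha]
    nlinarith [Nat.zero_le (a * p), Nat.zero_le (a ^ 2 * p)]
  -- decomposition of the support
  set U1 := U.filter fun u => C u ≠ 0 with hU1
  set U0 := U.filter fun u => C u = 0 with hU0'
  have hUc : U0.card + U1.card = U.card := by
    rw [hU1, hU0']
    exact Finset.card_filter_add_card_filter_not (fun u => C u = 0)
  have hUn : U.card ≤ n := Finset.card_le_univ U
  have hindU : ind U0 + ind U1 = ind U := by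
    ext w
    simp only [ind, Pi.add_apply, hU1, hU0', Finset.mem_filter]
    by_cases h1 : w ∈ U <;> by_cases h2 : C w = 0 <;> simp [h1, h2]
  have hDU : Pi.single v m + ind U ≤ D := by
    intro w
    by_cases hw : w = v
    · subst hw
      simp [ind, hU, hm]
    · simp only [Pi.add_apply, Pi.single_apply, hw, if_false, ind, zero_add]
      split_ifs with h
      · have h1 := Finset.mem_of_mem_erase h
        rw [hS, Finset.mem_filter] at h1
        have := h1.2
        omega
      · exact Nat.zero_le _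
  obtain ⟨D', hD'⟩ := exists_add_of_le hDU
  have hsD' : m + (U.card + size D') = k := by
    have h1 := congrArg size hD'
    rw [size_add, size_add, size_single, size_ind, hD] at h1
    omega
  have hCU : ind U1 ≤ C := by
    intro w
    simp only [ind]
    split_ifs with h
    · have := (Finset.mem_filter.1 h).2
      omega
    · exact Nat.zero_le _
  obtain ⟨Ca, hCa⟩ := exists_add_of_le hCU
  have hsCa : U1.card + size Ca = size C := by
    have h1 := congrArg size hCa
    rw [size_add, size_ind] at h1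
    exact h1.symm
  set j := U0.card + size D' with hj
  have hjk : j + m + U1.card = k := by omega
  have hCt : 2 ^ d * k ≤ size C + U.card := by omega
  have e2dk : 2 ^ d * k = 2 ^ d * j + 2 ^ d * m + 2 ^ d * U1.card := by
    rw [← hjk]; ring
  have e2dm : 2 ^ d * m = m + (2 ^ d - 1) * m := by
    have : 2 ^ d = 1 + (2 ^ d - 1) := by omega
    conv_lhs => rw [this]
    ring
  have hgr : n * 2 ^ d + 2 ^ d * j ≤ size Ca := by
    have h1 : n * 2 ^ d + 2 * n ≤ 2 ^ d * m := by
      have h2 : 2 ^ d * (3 * n) ≤ 2 ^ d * m := Nat.mul_le_mul_left _ hm3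
      nlinarith
    have h3 : U1.card ≤ 2 ^ d * U1.card := Nat.le_mul_of_pos_left _ (by positivity)
    omega
  obtain ⟨C0, F, hCF, hsF, hF⟩ := greedy hG hd j Ca hgr
  -- the remaining configuration with one pebble on each vertex of `U0` is not solvable
  have hvU0 : ∀ u ∈ U0, (Pi.single v m : V → ℕ) u = 0 := by
    intro u hu
    have h1 := Finset.ne_of_mem_erase (Finset.mem_filter.1 hu).1
    simp [h1]
  have hnot : ¬ Solvable G (C0 + ind U0) (Pi.single v m) := by
    intro hs
    obtain ⟨Q, A, h1, h2, h3⟩ := solv_cat_multi U0 _ hvU0 hs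
    apply hns
    rw [hCa, hCF]
    have h4 : Solvable G F (A + D') := hF _ (by rw [size_add, h2])
    have h5 : Solvable G (ind U1 + (C0 + F)) (ind U1 + (Q + (A + D'))) :=
      (solv_of_le le_rfl).add (h1.add h4)
    refine h5.mono le_rfl ?_
    rw [hD', ← hindU]
    calc Pi.single v m + (ind U0 + ind U1) + D' = (Pi.single v m + ind U0) + (ind U1 + D') := by
          abel
      _ ≤ (Q + A) + (ind U1 + D') := add_le_add_left h3 _
      _ = ind U1 + (Q + (A + D')) := by abel
  have hs1 : size (C0 + ind U0) + 2 ^ d * (k - m) ≥ t := by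
    have h1 : k - m = j + U1.card := by omega
    have h2 : size Ca = size C0 + 2 ^ d * j := by
      rw [hCF, size_add, hsF]
    have h3 : 2 * U1.card ≤ 2 ^ d * U1.card := Nat.mul_le_mul_right _ h2d
    rw [size_add, size_ind, h1, Nat.mul_add]
    omega
  have hs2 : 2 ^ d * m ≤ size (C0 + ind U0) := by
    have h1 : 2 ^ d * k = 2 ^ d * m + 2 ^ d * (k - m) := by
      rw [← Nat.mul_add]; congr 1; omega
    omega
  obtain ⟨C', h1, h2⟩ := key hG hd1 hd hmB hs2 hnot (k - m)
  apply h2
  have h3 : m + (k - m) = k := by omega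
  rw [h3]
  exact solv_of_size_ge ht (by omega) ⟨v, rfl⟩

end Pool.Agent.H2R2.Peb
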